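import Pool.Agent.N906.KG.Stm

/-!
# Project KG (helper906), MP_542436_nt: second order count for grids on `P¹ × P¹` over all number fields

Target. `K` a number field of degree `d`, `α_1..α_q`, `β_1..β_r` distinct points of `P¹(K)`, `q, r ≥ 1`,
`D = ⋃ {α_i} × P¹ ∪ ⋃ P¹ × {β_j}`, `0 < κ < 1/3`, `c` real. The number of the points `(x, y)` off `D` over `K` with
`h(x), h(y) ≤ log B` and `N_D^(1)(x, y) ≤ (q - κ) h(x) + (r - κ) h(y) + c` is
`B ^ (d (4 - 2κ)) exp ((C + o(1)) (2 κ d log B / log log B) ^ (2/3))`, `C = cst 2 (q r) = (3/2)^(5/3) (q r)^(1/3)`.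

The second order term comes from the primes which divide one form of each of the two points (a prime counts only once in
`N_D^(1)`): exponent vectors with two arbitrary exponents, hence the exponent `2/3`.

Notation: `Pool/Agent/H691R3/Places.lean`, `PlaceK.lean`, `Global.lean`: places `Pl K`, `lam v p r` local height of two
points (pairs), `hr p` height (`d` times the absolute logarithmic height), `sum_lam`: `∑_v lam v p r = hr p + hr r`,
`loss`, `lam_ge`, `lam_triangle`, `aff x = (x, 1)`; `Spl S` the infinite places and those of `S`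
(`Pool/Agent/W223/AK/Defs.lean`). `KG/Stm.lean`: `tl`, `tr`, `gl`, `sp`, `Sq`, `Tp` for tuples of ideals.
-/

set_option autoImplicit false

namespace Pool.Agent.N906.KG

open NumberField IsDedekindDomain Finset Filter Topology Pool.Agent.H691R3 Pool.Agent.W223.AK
open Pool.Agent.N906.NT (Cx cst)

section Defs

variable {K : Type} [Field K] [NumberField K] {q r : ℕ}

/-- distinct points of the projective line -/
def Al (α : Fin q → K × K) : Prop :=
  (∀ l, α l ≠ 0) ∧ ∀ i j, i ≠ j → (α i).1 * (α j).2 - (α i).2 * (α j).1 ≠ 0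

/-- `x` is none of the points -/
def Of (α : Fin q → K × K) (x : K) : Prop := ∀ l, x * (α l).2 - (α l).1 ≠ 0

/-- good reduction outside `S` -/
def Gd (S : Finset (Pr K)) (α : Fin q → K × K) : Prop :=
  ∀ v, v ∉ S → (∀ l, max (fv v (α l).1) (fv v (α l).2) = 1) ∧
    ∀ i j, i ≠ j → fv v ((α i).1 * (α j).2 - (α i).2 * (α j).1) = 1

/-- `P l` is the ideal of the form `l` at `x`, outside `S` -/
def IsP (S : Finset (Pr K)) (α : Fin q → K × K) (x : K) (P : Fin q → Idl K) : Prop :=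
  (∀ l, OffS S (P l)) ∧
    ∀ l v, v ∉ S → lam (Sum.inr v : Pl K) (aff x) (α l) = (P l v : ℝ) * Real.log (Nv v)

/-- the ideals of the two points together -/
def ap (P : Fin q → Idl K) (Q : Fin r → Idl K) : Fin (q + r) → Idl K := Fin.append P Q

end Defs

/-- the complex of the grid: at most one index of each block -/
def Gc (q r : ℕ) : Finset (Finset (Fin (q + r))) :=
  univ.filter fun s => (s.filter fun i : Fin (q + r) => (i : ℕ) < q).card ≤ 1 ∧
    (s.filter fun i : Fin (q + r) => q ≤ (i : ℕ)).card ≤ 1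

/-- CXG. The faces with two elements are the `{i, q + j}`. -/
def S_CXG : Prop := ∀ q r : ℕ, 1 ≤ q → 1 ≤ r → Cx (Gc q r) 2 (q * r)

section Statements

variable (K : Type) [Field K] [NumberField K]

/-- BASQ. Basic facts. (1) clear. (2) For `v ∉ S` `lam` is a natural multiple of `log Nv` (`lamF_discrete`), zero for almost all
`v`; if two of the `P l v` were positive, then by `lam_triangle` `lam v (α l) (α l') > 0`, but it is `0` for `v ∉ S`. The
formula is `sum_lam`, summed over `l`, `C ≥ ∑ hr (α l)`. (3) `lam_ge`. If `lam v (aff x) (α l)` and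
`lam v (aff x) (α l')` are both `≥ t` then `lam v (α l) (α l') ≥ t - loss v`; so all but one are `≤ C`.
(4) `sum_lam_le`. -/
def S_BASQ : Prop := ∀ (q : ℕ) (α : Fin q → K × K), 1 ≤ q → Al α →
  (∃ S₀ : Finset (Pr K), ∀ S : Finset (Pr K), S₀ ⊆ S → Gd S α) ∧
  ∀ S : Finset (Pr K), Gd S α → ∃ C : ℝ, 0 ≤ C ∧ ∀ x : K, Of α x →
    (∃ P, IsP S α x P) ∧
    (∀ P, IsP S α x P → (∀ l l', l ≠ l' → Cop (P l) (P l')) ∧
      |(q : ℝ) * hr (aff x) - tl P - ∑ l, ∑ v ∈ Spl S, lam v (aff x) (α l)| ≤ C ∧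
      ∀ l v, (P l v : ℝ) * Real.log (Nv v) ≤ hr (aff x) + C) ∧
    (∀ v ∈ Spl S, (∀ l, -(loss v) ≤ lam v (aff x) (α l)) ∧
      ∃ τ : Fin q, ∀ l, l ≠ τ → lam v (aff x) (α l) ≤ C) ∧
    ∀ v ∈ Spl S, ∀ l, lam v (aff x) (α l) ≤ hr (aff x) + C

/-- CELLQ (gap principle), generalises `RS.S_CELL` (proved, `q = 3`, `S = ∅`). For `x ≠ y` in `F` one has
`∑_v lam v (aff x) (aff y) = hr (aff x) + hr (aff y) ≤ 2 X`. At a finite `v ∉ S` the term is `≥ D l v log Nv` for each `l`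
(`lam_triangle` through `α l`, `loss v = 0`), and at most one `D l v` is not zero (if `F` is not empty, as the
`P l` are pairwise coprime); at `v ∈ S` it is `≥ s v`; at the infinite `w` it is `≥ s w - C`, and at one fixed infinite place
`w₀` it is `≥ s w₀ - C + log (1/ρ)` for two points in the same cell, where the disc of the points with
`lam w₀ (aff x) (α (τ w₀)) ≥ s w₀ - loss` is divided into `C / ρ` cells, `0 < ρ ≤ 1` (in the chart
`z = (x a₂ - a₁) / (x b₂ - b₁)` with `b` away from `a`; `ρ` is the area). Choose `ρ` slightly smaller than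
`exp (tl D + ∑ s - 2 X) / C`, or `ρ = 1` if this is larger. Tools: `chart_count_pow`, `packing_place` in `H691R3/PlaceK.lean`. -/
def S_CELLQ : Prop := ∀ (q : ℕ) (α : Fin q → K × K) (S : Finset (Pr K)), Al α → Gd S α →
  ∃ C : ℝ, 0 < C ∧ ∀ (X : ℝ) (D : Fin q → Idl K) (τ : Pl K → Fin q) (s : Pl K → ℝ) (F : Finset K),
    0 ≤ X → (∀ v ∈ Spl S, 0 ≤ s v) → (∀ l, OffS S (D l)) →
    (∀ x ∈ F, Of α x ∧ hr (aff x) ≤ X ∧ (∀ v ∈ Spl S, s v ≤ lam v (aff x) (α (τ v)) + loss v) ∧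
      ∃ P, IsP S α x P ∧ ∀ l, D l ≤ P l) →
    (F.card : ℝ) ≤ C * (Real.exp (2 * X - tl D - ∑ v ∈ Spl S, s v) + 1)

/-- LOWQ (many points with given divisors), generalises `RS.S_LOW` (proved; `q = 3`, forms `x, 1, x + 1`), same proof, with
S_CELLQ (`s = 0`), `RS.S_COSET K` (proved). `z₀` is larger than the norms of the primes at which some `(α l).2 ≠ 0` is not a
unit. If `tl D > X - C₁` there is nothing to show. `R = exp (X / d) / C₂`. Take `b` in the annulus, in the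
ideal `D l` of the `l` with `(α l).2 = 0` (if there is one), and `a ≡ b (α l).1 / (α l).2` modulo `D l` for all the other `l` (a
coset of the product of these `D l`, by the Chinese remainder theorem) in the annulus, with `a (α l).2 ≠ b (α l).1` for
all `l`: at least `c exp (2 X - tl D) - C exp X` pairs `(a, b)`. `x = a / b`, `𝔤 = (a, b)`, `hr (aff x) ≤ X - log N 𝔤`, and
`P l v ≥ D l v - 𝔤 v` (truncated) for `v ∉ S`. For given `𝔤` and `x` there are at most `W` pairs, so by S_CELLQ at most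
`W C (exp (2 X - 2 log N 𝔤 - tl D + m(𝔤)) + 1)` pairs have the gcd `𝔤`,
`m(𝔤) = ∑_l ∑_v min (𝔤 v) (D l v) log Nv`. The rest as for `RS.S_LOW`. -/
def S_LOWQ : Prop := ∀ (q : ℕ) (α : Fin q → K × K) (S : Finset (Pr K)), Al α → Gd S α →
  ∃ c₁ c C z₀ : ℝ, 0 < c₁ ∧ 0 < c ∧ 0 < C ∧ ∀ (X : ℝ) (D : Fin q → Idl K), 0 ≤ X →
    (∀ l l', l ≠ l' → Cop (D l) (D l')) → (∀ l v, D l v ≠ 0 → v ∉ S ∧ z₀ ≤ Nv v) → rs D ≤ c₁ →
    ∃ F : Finset K, (∀ x ∈ F, Of α x ∧ hr (aff x) ≤ X ∧ ∃ P, IsP S α x P ∧ ∀ l, D l ≤ P l) ∧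
      c * Real.exp (2 * X - tl D) - C * Real.exp X ≤ F.card

/-- UPG (upper bound), from BASQ, CELLQ, REDK, RANK, CNTK, CXG and `RS.S_CNT K` (proved: `O(Y)` primes of norm `≤ Y`). The constants
`C` below depend on `C₀`, `α`, `β`, `S`. Divide `F` according to: `m₁ = ⌈hr (aff x)⌉₊`, `m₂ = ⌈hr (aff y)⌉₊` (`≤ X + 1`), for each `v ∈ Spl S` the
index `τ v` of the form with the largest `lam v (aff x) (α l)` and `k v = ⌊lam v (aff x) (α (τ v)) + loss v⌋₊ ≤ X + C`, and the same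
`τ'`, `k'` for `y`: at most `C (X + C) ^ (2 + 2 |Spl S|)` classes, absorbed by `ε`. Fix one. By BASQ
`gl (ap P Q) = tl P + tl Q - tr (ap P Q) ≥ κ (m₁ + m₂) - ∑ k - ∑ k' - C =: T`. If `T ≤ 0`: by CELLQ with `D = 0` at most
`C (exp (2 m₁ - ∑ k) + 1) (exp (2 m₂ - ∑ k') + 1)`, and `- ∑ k - ∑ k' ≤ - κ (m₁ + m₂) + C`: fine. If `T > 0`:
`Tp (Gc q r) (ap P Q)` (the `P l` are pairwise coprime, the `Q l` too), so REDK gives a tuple `ap D E ≤ ap P Q`, `Sq`, `gl ≥ T`,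
`gl - log Nv < T` for all its primes. By CELLQ there are for given `(D, E)` at most
`C (exp (2 m₁ - tl D - ∑ k) + 1) (exp (2 m₂ - tl E - ∑ k') + 1)` pairs `(x, y)`. The sum of
`exp (2 m₁ + 2 m₂ - ∑ k - ∑ k' - tl D - tl E)` over all these `(D, E)` is by RANK with `Z = 2 κ (X + 1)` at most
`exp ((2 - κ) (m₁ + m₂) + C + (1 + ε') cst 2 (q r) (Z / log Z)^(2/3))`: this is the main term. The other terms:
(a) if `(D, E)` is not of the form `v²` at one place or `v` at two places, then `gl (D, E) < 2 T` (with `v` the prime of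
least norm, `2 log Nv ≤ gl < T + log Nv`), by CNTK there are at most
`C exp ((1 + η) 2 T) ≤ C exp (4 κ (1 + η) (X + 1))` of them, times `3 exp (2 X + 2)`: smaller than `exp ((4 - 2 κ) X)` as
`6 κ < 2`. (b) `D = v²` at one place, `E = 0` (or conversely): `2 log Nv ≤ hr (aff x) + C`, so there are `O(exp (X / 2))`
such `v`, and the other terms are `O(exp (X / 2 + 2 X))`. (c) `v` at one place of `D` and of `E`: `log Nv ≤ m₁ + C`, and
`∑_v (exp (2 m₁ - log Nv) + exp (2 m₂ - log Nv) + 1) = O(exp (5 X / 2))` (crude: `∑_{Nv ≤ Y} 1 / Nv = O(Y^(1/2))`). And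
`5/2 < 4 - 2 κ`. -/
def S_UPG : Prop := ∀ (q r : ℕ) (α : Fin q → K × K) (β : Fin r → K × K) (S : Finset (Pr K)) (κ ε C₀ : ℝ),
  1 ≤ q → 1 ≤ r → Al α → Al β → Gd S α → Gd S β → 0 < κ → κ < 1 / 3 → 0 < ε → 0 ≤ C₀ →
  ∃ X₀ : ℝ, 1 < X₀ ∧ ∀ (X : ℝ) (F : Finset (K × K)), X₀ ≤ X →
    (∀ p ∈ F, Of α p.1 ∧ Of β p.2 ∧ hr (aff p.1) ≤ X ∧ hr (aff p.2) ≤ X ∧
      ∃ P Q, IsP S α p.1 P ∧ IsP S β p.2 Q ∧
        tr (ap P Q) ≤ ((q : ℝ) - κ) * hr (aff p.1) + ((r : ℝ) - κ) * hr (aff p.2) + C₀) →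
    (F.card : ℝ) ≤ Real.exp ((4 - 2 * κ) * X +
      (1 + ε) * cst 2 (q * r) * (2 * κ * X / Real.log X) ^ ((2 : ℝ) / 3))

/-- LOG (lower bound), from BASQ, CELLQ, LOWQ, WINK, CXG and `RS.S_CNT K`. Proof. `C₁` a constant such that
`gl (ap P Q) ≥ T := 2 κ X + C₁` implies the wanted inequality (BASQ: `tl P + tl Q ≤ q hr (aff x) + r hr (aff y) + C`). Fix a
prime `𝔮 ∉ S` of large norm. `Z = T`, `F₀` from WINK for `Gc q r`, `r = 2`, `t = q r`, a small `ε'` and a small `c`. For a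
tuple of `F₀`, i.e. `ap D E`, let `j ≥ 1` be minimal with `gl + j log N𝔮 ≥ T`, so `gl + j log N𝔮 ≤ T + log N𝔮`; `D'` is `D` with
the exponent `j + 1` of `𝔮` at the place `0`. `tl D' + tl E = gl + tr + (j + 1) log N𝔮 ≤ T + 2 log N𝔮 + tr ≤ (2 κ + ε'') X + C < X`.
LOWQ gives sets `A` (for `D'`) and `B` (for `E`) with at least `(c/2) exp (2 X - tl D')` and `(c/2) exp (2 X - tl E)`
elements. Remove from `A × B` the pairs such that, for some `v` with `√Z < Nv ≤ exp (ε' Z)`: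
(1) `v ∈ sp (ap D E)` and `P l v ≥ D l v + 1` or `Q l v ≥ E l v + 1` for some `l`: by CELLQ (`s = 0`) at most
`C rs (ap D E) exp (4 X - tl D' - tl E)`; (2) `v ∉ sp (ap D E)` and `P l v ≥ 2` or `Q l v ≥ 2` for some `l`, or
`P l v ≥ 1` and `Q l' v ≥ 1` for some `l, l'`: at most `C ∑_{Nv > √Z} Nv^(-2) exp (4 X - tl D' - tl E)` (the terms `+ 1` of CELLQ do
not matter as `log Nv ≤ ε' Z`). At least half of the pairs remain. They satisfy `ap D' E ≤ ap P Q`, so
`gl (ap P Q) ≥ gl (ap D' E) ≥ T`. For different tuples of `F₀` the sets are disjoint: for `√Z < Nv ≤ exp (ε' Z)` the exponents of `v`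
in `ap D E` are those in `ap P Q` if the sum of the latter is `≥ 2`, and `0` otherwise. Total:
`≥ ∑ c' exp (4 X - T - 2 log N𝔮 - tr (ap D E))`. -/
def S_LOG : Prop := ∀ (q r : ℕ) (α : Fin q → K × K) (β : Fin r → K × K) (S : Finset (Pr K)) (κ ε C₀ : ℝ),
  1 ≤ q → 1 ≤ r → Al α → Al β → Gd S α → Gd S β → 0 < κ → κ < 1 / 3 → 0 < ε → ε < 1 → 0 ≤ C₀ →
  ∃ X₀ : ℝ, 1 < X₀ ∧ ∀ X : ℝ, X₀ ≤ X → ∃ F : Finset (K × K),
    (∀ p ∈ F, Of α p.1 ∧ Of β p.2 ∧ hr (aff p.1) ≤ X ∧ hr (aff p.2) ≤ X ∧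
      ∃ P Q, IsP S α p.1 P ∧ IsP S β p.2 Q ∧
        tr (ap P Q) + C₀ ≤ ((q : ℝ) - κ) * hr (aff p.1) + ((r : ℝ) - κ) * hr (aff p.2)) ∧
    Real.exp ((4 - 2 * κ) * X +
      (1 - ε) * cst 2 (q * r) * (2 * κ * X / Real.log X) ^ ((2 : ℝ) / 3)) ≤ F.card

end Statements

end Pool.Agent.N906.KG
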