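import Pool.Agent.N906.KG.Stm

/-!
# Project KG (helper906), MP_7475bd_nt: second order count for the `n`-term abc inequality over all number fields

Target. `K` a number field of degree `d`, `n ≥ 3`, `0 < κ < 1/3`, `c` real. The number of the points
`P = (z_1 : ... : z_n)` over `K` with sum zero, all `z_i ≠ 0`, without vanishing subsum, `h(P) ≤ log B` and
`rad(P) ≤ (n - κ) h(P) + c` is `B ^ (d (n - 1 - κ)) exp ((C + o(1)) (κ d log B / log log B) ^ ((n-2)/(n-1)))`,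
`C = cst (n - 2) (binomial(n, 2))`. This is the version over `K` of project NT (`Pool/Agent/N906/NT/Stm.lean`, proved).

Coordinates are taken in `𝓞 K` with the same size at all infinite places, and a bounded greatest common divisor. Boxes:
`w (x k) ≤ B k w`. `vol B` is (up to a constant) the volume of the box in the hyperplane of sum zero.
`X` is `d` times the logarithmic height (`Height.logHeight`).
-/

set_option autoImplicit false

namespace Pool.Agent.N906.KG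

open NumberField IsDedekindDomain Finset Filter Topology Pool.Agent.H691R3 Pool.Agent.W223.AK
open Pool.Agent.N906.NT (Cx cst Dl)

section Defs

variable {K : Type} [Field K] [NumberField K] {n N : ℕ}

/-- `P i v` is the order of `z i` at `v` minus the smallest of these orders -/
def IsQ (z : Fin n → K) (P : Fin n → Idl K) : Prop :=
  ∀ i v, fv v (z i) = (⨆ j, fv v (z j)) * (Nv v) ^ (-(P i v : ℤ))

/-- no vanishing subsum -/
def NVK (z : Fin n → K) : Prop :=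
  ∀ I : Finset (Fin n), I.Nonempty → I ≠ univ → ∑ i ∈ I, z i ≠ 0

/-- `D k` divides `x k` -/
def Dv (D : Fin n → Idl K) (x : Fin n → 𝓞 K) : Prop :=
  ∀ k v, fv v (x k : K) ≤ (Nv v) ^ (-(D k v : ℤ))

/-- `x k` is congruent to `c k` modulo `m` -/
def Cg (m : Idl K) (c x : Fin n → 𝓞 K) : Prop :=
  ∀ k v, fv v ((x k : K) - (c k : K)) ≤ (Nv v) ^ (-(m v : ℤ))

/-- the volume of a product of discs -/
noncomputable def bn (ρ : InfinitePlace K → ℝ) : ℝ := ∏ w, ρ w ^ w.mult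

/-- the volume of a box in the hyperplane -/
noncomputable def vol (B : Fin n → InfinitePlace K → ℝ) : ℝ :=
  (∏ k, bn (B k)) / bn (fun w => ⨆ k, B k w)

/-- the volume at the step `j`, for the order `e` of the coordinates (the last one is dependent) -/
noncomputable def Rj (B : Fin (N + 1) → InfinitePlace K → ℝ) (e : Fin (N + 1) ≃ Fin (N + 1))
    (j : Fin N) : ℝ :=
  bn fun w => min (B (e j.castSucc) w) (⨆ i : {i : Fin (N + 1) // j.castSucc < i}, B (e i) w)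

/-- the logarithm of the norm of the modulus at the step `j` -/
noncomputable def lj (D : Fin (N + 1) → Idl K) (e : Fin (N + 1) ≃ Fin (N + 1)) (j : Fin N) : ℝ :=
  ∑ v ∈ sp D, ((max (D (e j.castSucc) v)
    (⨅ i : {i : Fin (N + 1) // j.castSucc < i}, D (e i) v) : ℕ) : ℝ) * Real.log (Nv v)

end Defs

section Statements

variable (K : Type) [Field K] [NumberField K]

/-- TEL (two telescoping sums). With `M_j = max_{i ≥ j} B_i`: `min(B_j, M_{j+1}) M_j = B_j M_{j+1}`, so the product over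
`j < N` is `∏ B / M_0`. With `μ_j = min_{i ≥ j} a_i`: `max(a_j, μ_{j+1}) = a_j + μ_{j+1} - μ_j`, so the sum over `j < N` is
`∑ a - μ_0`, and `μ_0 = 0`. -/
def S_TEL : Prop := ∀ (N : ℕ) (e : Fin (N + 1) ≃ Fin (N + 1)), 1 ≤ N →
  (∀ B : Fin (N + 1) → InfinitePlace K → ℝ, (∀ k w, 0 < B k w) → ∏ j, Rj B e j = vol B) ∧
  ∀ D : Fin (N + 1) → Idl K, (∀ v, ∃ i, D i v = 0) → ∑ j, lj D e j = tl D

/-- DISC. Elements of a class modulo an ideal in a product of discs. Two different ones have `N(x - y) ≥ N(m)`. Divide the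
disc at one infinite place `w₀` into `C / λ` cells of diameter at most `λ^(1/mult) ρ w₀` (`λ` the area, `0 < λ ≤ 1`); in a cell
(for all places) `N(x - y) ≤ 2^d C λ bn ρ`; take `λ` slightly smaller than `N(m) / (2^d C bn ρ)`, or `λ = 1`. Tools:
`packing_place`, `chart_count_pow` in `H691R3/PlaceK.lean`. -/
def S_DISC : Prop := ∃ C : ℝ, 0 < C ∧ ∀ (a : InfinitePlace K → ℂ) (ρ : InfinitePlace K → ℝ) (m : Idl K)
    (F : Finset (𝓞 K)), (∀ w, 0 < ρ w) → (∀ x ∈ F, ∀ w, ‖w.embedding (x : K) - a w‖ ≤ ρ w) →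
    (∀ x ∈ F, ∀ y ∈ F, ∀ v, fv v ((x : K) - (y : K)) ≤ (Nv v) ^ (-(m v : ℤ))) →
    (F.card : ℝ) ≤ C * (bn ρ * Real.exp (-len m) + 1)

/-- SEQ0 (counting coordinate by coordinate), from DISC. Given the coordinates `x (e i)`, `i < j` (sum `s`), `x (e j)` is divisible by
`D (e j)`, it is `≡ - s` modulo the greatest common divisor of the `D (e i)`, `i > j` (the sum is zero), and `≡ c (e j)` modulo
`m`; at `w` it is in the disc of radius `B (e j) w` around `0` and in the disc of radius `∑_{i > j} B (e i) w` around `- s`. So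
by DISC there are at most `C (N^d Rj exp (- lj - len m) + 1)` possibilities; induction on `j`. -/
def S_SEQ0 : Prop := ∀ N : ℕ, 1 ≤ N → ∃ C : ℝ, 0 < C ∧ ∀ (e : Fin (N + 1) ≃ Fin (N + 1))
    (D : Fin (N + 1) → Idl K) (m : Idl K) (c : Fin (N + 1) → 𝓞 K) (B : Fin (N + 1) → InfinitePlace K → ℝ)
    (F : Finset (Fin (N + 1) → 𝓞 K)), (∀ k w, 0 < B k w) → (∀ v, m v = 0 ∨ ∀ k, D k v = 0) →
    (∀ x ∈ F, ∑ k, x k = 0 ∧ Dv D x ∧ Cg m c x ∧ ∀ k (w : InfinitePlace K), w (x k : K) ≤ B k w) →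
    (F.card : ℝ) ≤ C * ∏ j, (Rj B e j * Real.exp (-lj D e j - len m) + 1)

/-- SEQK, from SEQ0 (`m = 0`, any `e`) and TEL. Each `Rj ≤ H`, their product is `vol B ≥ β H^(N-1)`, so each `Rj ≥ β`. If
`lj ≤ log Rj` for all `j`: at most `C 2^N vol B exp (- tl D)`. At most one `lj` can be larger than `log Rj` (two: `tl D > 2 log β`),
and then the bound is `C 2^N vol B / Rj ≤ C 2^N vol B / β`. -/
def S_SEQK : Prop := ∀ N : ℕ, 1 ≤ N → ∃ C : ℝ, 0 < C ∧ ∀ (D : Fin (N + 1) → Idl K)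
    (B : Fin (N + 1) → InfinitePlace K → ℝ) (H β : ℝ) (F : Finset (Fin (N + 1) → 𝓞 K)),
    (∀ v, ∃ i, D i v = 0) → (∀ k w, 0 < B k w) → 1 ≤ β → bn (fun w => ⨆ k, B k w) ≤ H →
    β * H ^ (N - 1) ≤ vol B → tl D ≤ 2 * Real.log β →
    (∀ x ∈ F, ∑ k, x k = 0 ∧ Dv D x ∧ ∀ k (w : InfinitePlace K), w (x k : K) ≤ B k w) →
    (F.card : ℝ) ≤ C * vol B * (Real.exp (-tl D) + 1 / β)

/-- TRIVK, from SEQ0 and TEL. If all `Rj ≥ 1` the bound of SEQ0 (`D = 0`, `m = 0`) is `C 2^N vol B`; otherwise it is at most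
`C (H + 1)^(N-1) 2`. -/
def S_TRIVK : Prop := ∀ N : ℕ, 1 ≤ N → ∃ C : ℝ, 0 < C ∧ ∀ (B : Fin (N + 1) → InfinitePlace K → ℝ) (H : ℝ)
    (F : Finset (Fin (N + 1) → 𝓞 K)), (∀ k w, 0 < B k w) → 1 ≤ H → bn (fun w => ⨆ k, B k w) ≤ H →
    (∀ x ∈ F, ∑ k, x k = 0 ∧ ∀ k (w : InfinitePlace K), w (x k : K) ≤ B k w) →
    (F.card : ℝ) ≤ C * (vol B + H ^ (N - 1))

/-- PRMK (large primes), from SEQ0 and TEL. (1) Take `e` with `e 0 = i`, `D = v²` at `i`: `lj = 2 log Nv` for `j = 0`, and `0` for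
`j ≥ 1`; if `F` is not empty then `Nv² ≤ N(x i) ≤ N^d Rj` for `j = 0`, as `|x i|_w ≤ B i w` and `≤ ∑_{k ≠ i} B k w`; and
`Rj ≥ β ≥ 1`. (2) `e 0 = i`, `e 1 = j`, `D = v` at `i` and `j`: `lj = log Nv, log Nv, 0, ...`; `Nv ≤ N^d R0`, and
`R1 / Nv + 1 ≤ R1 (1 / Nv + 1 / β)`. -/
def S_PRMK : Prop := ∀ N : ℕ, 2 ≤ N → ∃ C : ℝ, 0 < C ∧ ∀ (B : Fin (N + 1) → InfinitePlace K → ℝ) (H β : ℝ)
    (v : Pr K), (∀ k w, 0 < B k w) → 1 ≤ β → bn (fun w => ⨆ k, B k w) ≤ H → β * H ^ (N - 1) ≤ vol B →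
    (∀ (i : Fin (N + 1)) (F : Finset (Fin (N + 1) → 𝓞 K)),
      (∀ x ∈ F, ∑ k, x k = 0 ∧ x i ≠ 0 ∧ fv v (x i : K) ≤ (Nv v)⁻¹ ^ 2 ∧
        ∀ k (w : InfinitePlace K), w (x k : K) ≤ B k w) →
      (F.card : ℝ) ≤ C * vol B * ((Nv v)⁻¹ ^ 2)) ∧
    (∀ (i j : Fin (N + 1)) (F : Finset (Fin (N + 1) → 𝓞 K)), i ≠ j →
      (∀ x ∈ F, ∑ k, x k = 0 ∧ x i ≠ 0 ∧ fv v (x i : K) ≤ (Nv v)⁻¹ ∧ fv v (x j : K) ≤ (Nv v)⁻¹ ∧
        ∀ k (w : InfinitePlace K), w (x k : K) ≤ B k w) →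
      (F.card : ℝ) ≤ C * vol B * ((Nv v)⁻¹ ^ 2 + (Nv v)⁻¹ / β))

/-- REPK (good coordinates). `d = [K : ℚ]`. Choose first `t₁` with `t₁ z` integral and with a greatest common divisor in a finite set of
ideals (class group), then multiply by a unit (Dirichlet) so that the `max_i |x_i|_w` are equal up to a constant; their
product (with multiplicities) is `exp (logHeight z)` times the norm of the greatest common divisor. Compare
`Pool/Agent/N906/EQ/Prim.lean`, `Orbit.lean`, `Unit.lean` (`Vc`, `Jr`). -/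
def S_REPK : Prop := ∀ n : ℕ, 1 ≤ n → ∃ C : ℝ, 1 ≤ C ∧ ∀ z : Fin n → K, z ≠ 0 →
  ∃ (t : K) (x : Fin n → 𝓞 K), t ≠ 0 ∧ (∀ i, (x i : K) = t * z i) ∧
    ∀ w : InfinitePlace K,
      C⁻¹ * Real.exp (Height.logHeight z / Module.finrank ℚ K) ≤ (⨆ i, w (x i : K)) ∧
      (⨆ i, w (x i : K)) ≤ C * Real.exp (Height.logHeight z / Module.finrank ℚ K)

/-- BASN. Basic facts on the ideals of a point: `P i v` is the difference of the orders, zero for almost all `v`;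
`sum` of `log N` of the parts: `len (P i) = - ∑_v log (fv v (z i) / max_j fv v (z j)) ≤ logHeight z` by the product formula
(`log_product_formula` in `H691R3/Global.lean`, `logHeight_sum` in `N906/EQ/Law.lean`). -/
def S_BASN : Prop := ∀ (n : ℕ) (z : Fin n → K), 1 ≤ n → (∀ i, z i ≠ 0) →
  ∃ P : Fin n → Idl K, IsQ z P ∧ tl P ≤ n * Height.logHeight z ∧
    (∀ v, ∃ i, P i v = 0) ∧ ∀ v, v ∈ sp P ↔ ∃ i j, fv v (z i) ≠ fv v (z j)

/-- UPNK (upper bound), from REPK, SEQK, TRIVK, PRMK, REDK, RANK, CNTK and `RS.S_CNT K` (proved: `O(Y)` primes of norm `≤ Y`). `n = N + 1`.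
`C` denotes constants. Replace each point by `x` of REPK; `h = logHeight`. `IsQ x P`, `fv v (x i) ≤ Nv^(-P i v)`, and
`∑_k log N(x k) - C ≤ tl P`, because `∏_w (max_i |x_i|_w)^mult ≤ C exp h`, so that the norm of the greatest common divisor is
`≤ C`. Classes: `m = ⌈h⌉₊ ≤ X + 1`, and for all `k`, `w` the box `B k w / 2 < w (x k) ≤ B k w`, `B k w = C exp (m / d) 2^(-i)`,
`0 ≤ i ≤ C (m + 1)` (since `N(x k) ≥ 1`): at most `(C X + C)^C` classes, absorbed by `ε`. Fix one; `bn (max_k B k w)` is between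
`exp (m - C)` and `H := exp (m + C)`. `gl P = tl P - tr P ≥ ∑_k log bn (B k) - C - (n - κ) m ≥ log (vol B) - (n - 1 - κ) m - C =: T`.
If `T < 0`: TRIVK. If `T ≥ 0`: as the sum is zero, at most `n - 2` of the `P i v` are positive for given `v`
(`Tp (Dl n (n - 2)) P`); REDK gives `D ≤ P`. `β := vol B / H^(N-1)`, `log β ≥ T + (1 - κ) m - C`, and `T ≤ κ m + C` since
`log (vol B) ≤ (n - 1) m + C`. (a) If `D` is not `v²` at one place or `v` at two places then `gl D < 2 T` (with `v` the prime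
of least norm, `2 log Nv ≤ gl D < T + log Nv`), `tl D ≤ 2 gl D ≤ 4 T ≤ 2 log β`, so SEQK: at most `C vol B (exp (- tl D) + 1 / β)`
points for given `D`. The sum of `vol B exp (- tl D)` is by RANK (`Z = κ (X + 1) + C`) at most
`exp ((n - 1 - κ) m + C + (1 + ε') cst (n-2) (n.choose (n-2)) (Z / log Z)^((n-2)/(n-1)))`, and `vol B / β = H^(N-1)` times the number
`C exp ((1 + η) 2 T)` of the `D` (CNTK) is at most `exp ((n - 2) m + 2 (1 + η) κ m + C)`, fine as `3 κ < 1`.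
(b) Otherwise PRMK: the sum of `vol B Nv^(-2)` over the `v` with `log Nv ≥ T` is also part of the sum in RANK; the sum of
`vol B / (β Nv) = H^(N-1) / Nv` over the `Nv ≤ exp (m + C)` is crudely `O(exp ((n - 2) m + m / 2))` (`∑_{Nv ≤ Y} 1 / Nv = O(Y^(1/2))`), and
`κ < 1/2`. For small `m` use TRIVK (the bound is increasing in `m`). -/
def S_UPNK : Prop := ∀ (n : ℕ) (κ ε C₀ : ℝ), 3 ≤ n → 0 < κ → κ < 1 / 3 → 0 < ε → 0 ≤ C₀ →
  ∃ X₀ : ℝ, 1 < X₀ ∧ ∀ (X : ℝ) (F : Finset (Projectivization K (Fin n → K))), X₀ ≤ X →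
    (∀ p ∈ F, ∑ i, p.rep i = 0 ∧ (∀ i, p.rep i ≠ 0) ∧ Height.logHeight p.rep ≤ X ∧
      ∃ P, IsQ p.rep P ∧ tr P ≤ ((n : ℝ) - κ) * Height.logHeight p.rep + C₀) →
    (F.card : ℝ) ≤ Real.exp (((n : ℝ) - 1 - κ) * X +
      (1 + ε) * cst (n - 2) (n.choose (n - 2)) *
        (κ * X / Real.log X) ^ (((n : ℝ) - 2) / (n - 1)))

/-- BXU (upper bound in a cube with congruences), from SEQ0 and TEL: `Rj = ((N + 1) R)^d`, and each `lj + len m ≤ tl D + len m ≤ d log R`, so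
the terms `+ 1` only give a factor 2. -/
def S_BXU : Prop := ∀ N : ℕ, 2 ≤ N → ∃ C : ℝ, 0 < C ∧ ∀ (R : ℝ) (D : Fin (N + 1) → Idl K) (m : Idl K)
    (c : Fin (N + 1) → 𝓞 K) (F : Finset (Fin (N + 1) → 𝓞 K)), 1 ≤ R → (∀ v, ∃ i, D i v = 0) →
    (∀ v, m v = 0 ∨ ∀ k, D k v = 0) → tl D + len m ≤ Module.finrank ℚ K * Real.log R →
    (∀ x ∈ F, ∑ k, x k = 0 ∧ Dv D x ∧ Cg m c x ∧ ∀ k (w : InfinitePlace K), w (x k : K) ≤ (N + 1) * R) →
    (F.card : ℝ) ≤ C * Real.exp (N * (Module.finrank ℚ K * Real.log R) - tl D - N * len m)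

/-- BXL (lower bound), from `RS.S_COSET K` (proved). Choose `x 1, ..., x N` one after the other, `x 0` is minus their sum. `G_j`
the greatest common divisor of `D_j, ..., D_N, D_0` (`G_1 = 1`). If the sum `s` of `x 1, ..., x (j-1)` is divisible by `G_j`, then
there is a class modulo `lcm (D_j, G_{j+1}) m` of elements `x j` with `x j ≡ 0` modulo `D_j`, `≡ - s` modulo `G_{j+1}`, `≡ c j`
modulo `m` (Chinese remainder theorem: `gcd (D_j, G_{j+1}) = G_j` divides `s`, `m` is coprime to the `D`'s). By S_COSET at least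
`c R^d / N(lcm (D_j, G_{j+1}) m)` of them lie in the annulus. The product of the norms of the `lcm` is `exp (tl D)` (TEL). -/
def S_BXL : Prop := ∀ N : ℕ, 2 ≤ N → ∃ c₂ : ℝ, 0 < c₂ ∧ ∀ (R : ℝ) (D : Fin (N + 1) → Idl K) (m : Idl K)
    (c : Fin (N + 1) → 𝓞 K), 1 ≤ R → (∀ v, ∃ i, D i v = 0) → (∀ v, m v = 0 ∨ ∀ k, D k v = 0) →
    ∑ k, c k = 0 → Real.exp (tl D + len m) ≤ c₂ * R ^ Module.finrank ℚ K →
    ∃ F : Finset (Fin (N + 1) → 𝓞 K),
      (∀ x ∈ F, ∑ k, x k = 0 ∧ Dv D x ∧ Cg m c x ∧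
        ∀ k, k ≠ 0 → ∀ w : InfinitePlace K, R / 2 ≤ w (x k : K) ∧ w (x k : K) ≤ R) ∧
      c₂ * Real.exp (N * (Module.finrank ℚ K * Real.log R) - tl D - N * len m) ≤ F.card

/-- LOWNK (many points with given `D`), from BASN, SEQ0, TEL, BXU, BXL and `RS.S_CNT K`. `n = N + 1`, `R = exp (X / d) / n`. `m` = the product of the primes of
norm `≤ z₀`, `c 1 = 1`, `c 2 = -1`, `c k = 0` for the other `k`. BXL gives at least
`c₂ exp (N d log R - tl D - N len m)` tuples `x`. Remove (by BXU with the same `m` and `c`, ratio of the constants `C / c₂` independent of `z₀`):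
(R1) those with `v D_i ∣ x_i` for some `v ∈ sp D`, `z₀ < Nv ≤ exp P`, and some `i` (factor `1 / Nv`; the minimum of the new exponents at `v`
is still zero, as at least two of the `D k v` are zero; total `≤ C n rs D`); (R2) for the `v ∉ sp D` with
`z₀ < Nv ≤ exp ((X - tl D - C) / 2)` those with `v² ∣ x_i` (only for `Nv ≤ exp P`) or `v ∣ x_i, v ∣ x_j`, `i ≠ j` (factor `Nv^(-2)`; for
`n = 3` and the second condition `v` divides all `x_k`: use only two of them); total `≤ C / z₀`; (R3) for the larger `v` (`Nv ≤ exp (X + C)`) those with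
`v ∣ x_i, v ∣ x_j`: without using `D` (SEQ0 and TEL with `D = v` at `i`, `j`, the first two in the order; here `Nv ≤ C R^d` since `x_i ≠ 0`) at most
`C exp (N d log R) Nv^(-2)`, in total `C exp (N d log R - (X - tl D - C)/2)`, small as `3 tl D + C₀ ≤ X`; (R4) those with a vanishing subsum
(at most `2^n C exp ((N - 1) d log R)`). At least half remain. For these the `x k` have no common prime factor (for `Nv ≤ z₀` by
the congruence `x 1 ≡ 1`; a prime of `sp D` of norm `≤ exp P` by (R1): some `D k v = 0`; the others by (R2), (R3)), `IsQ x P` with `P i v = ord_v (x i)`,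
`tl P = ∑ log N(x k) ≤ n logHeight x`, `logHeight x ≤ d log (n R) ≤ X`. Each point comes from at most `W` tuples `x` (units with
`1/(2n) ≤ |u|_w ≤ 2n`). -/
def S_LOWNK : Prop := ∀ n : ℕ, 3 ≤ n → ∃ c₁ c C₀ z₀ : ℝ, 0 < c₁ ∧ 0 < c ∧ 0 < C₀ ∧ 1 < z₀ ∧
  ∀ (X P₀ : ℝ) (D : Fin n → Idl K), 0 ≤ P₀ → Tp (Dl n (n - 2)) D →
    (∀ v ∈ sp D, z₀ < Nv v ∧ Nv v ≤ Real.exp P₀) → rs D ≤ c₁ → 3 * tl D + 2 * P₀ + C₀ ≤ X →
  ∃ F : Finset (Projectivization K (Fin n → K)),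
    (∀ p ∈ F, ∑ i, p.rep i = 0 ∧ (∀ i, p.rep i ≠ 0) ∧ NVK p.rep ∧ Height.logHeight p.rep ≤ X ∧
      ∃ P, IsQ p.rep P ∧ (∀ i, D i ≤ P i) ∧ tl P ≤ n * Height.logHeight p.rep ∧
        ∀ v, z₀ < Nv v → Nv v ≤ Real.exp P₀ →
          (v ∈ sp D → ∀ i, P i v = D i v) ∧ (v ∉ sp D → ∑ i, P i v ≤ 1)) ∧
    c * Real.exp (((n : ℝ) - 1) * X - tl D) ≤ F.card

/-- LONK (lower bound), from WINK and LOWNK. `T = κ X + C₀`, `Z = T`. Fix a prime `𝔮` with `Nv 𝔮 > z₀` and `1 / N𝔮 ≤ c₁ / 2`. `F₀` from WINK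
for `Dl n (n - 2)`, `r = n - 2`, `t = n.choose (n - 2)`, a small `ε'` and `c = c₁ / 2`; `√Z > N𝔮`. For `D ∈ F₀` let `j ≥ 1` be minimal with
`gl D + j log N𝔮 ≥ T`, and `D'` = `D` with the exponent `j + 1` of `𝔮` at the place `0`; `gl D' ≥ T`,
`tl D' ≤ T + 2 log N𝔮 + tr D ≤ (κ + ε'') X + C`, `rs D' ≤ c₁`; LOWNK with `P₀ = ε' Z` (`3 κ < 1`; `log Nv ≤ tr D ≤ ε' Z`). For its
points `tr P = tl P - gl P ≤ n h - gl D' ≤ n h - κ X - C₀ ≤ (n - κ) h - C₀` (`gl` is monotone). For different `D` the sets are disjoint: for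
`√Z < Nv ≤ exp P₀` the `D i v` are the `P i v` if `∑ P i v ≥ 2`, and `0` otherwise. Total at least
`∑ c exp ((n - 1) X - T - 2 log N𝔮 - tr D)`. -/
def S_LONK : Prop := ∀ (n : ℕ) (κ ε C₀ : ℝ), 3 ≤ n → 0 < κ → κ < 1 / 3 → 0 < ε → ε < 1 → 0 ≤ C₀ →
  ∃ X₀ : ℝ, 1 < X₀ ∧ ∀ X : ℝ, X₀ ≤ X → ∃ F : Finset (Projectivization K (Fin n → K)),
    (∀ p ∈ F, ∑ i, p.rep i = 0 ∧ (∀ i, p.rep i ≠ 0) ∧ NVK p.rep ∧ Height.logHeight p.rep ≤ X ∧
      ∃ P, IsQ p.rep P ∧ tr P + C₀ ≤ ((n : ℝ) - κ) * Height.logHeight p.rep) ∧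
    Real.exp (((n : ℝ) - 1 - κ) * X +
      (1 - ε) * cst (n - 2) (n.choose (n - 2)) *
        (κ * X / Real.log X) ^ (((n : ℝ) - 2) / (n - 1))) ≤ F.card

end Statements

end Pool.Agent.N906.KG
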