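import Pool.Agent.N906.KG.Grid
import Pool.Agent.N906.KG.Nt

/-!
# Project KG (helper906): the final statements (definitions, exceptional closed sets, limits)
-/

set_option autoImplicit false

namespace Pool.Agent.N906.KG

open NumberField IsDedekindDomain Finset Filter Topology
open Pool.Agent.N906.NT (cst)

section

variable {K : Type} [Field K] [NumberField K]

/-- the absolute logarithmic height of a point of projective space (the height of Mathlib is relative to `K`) -/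
noncomputable def hh {m : ℕ} (P : Projectivization K (Fin m → K)) : ℝ :=
  Height.logHeight P.rep / (Module.finrank ℚ K : ℝ)

/-! ### Grids on `P¹ × P¹` -/

/-- `P` is none of the points `α l` -/
def Off1 {q : ℕ} (α : Fin q → Fin 2 → K) (P : Projectivization K (Fin 2 → K)) : Prop :=
  ∀ l, P.rep 0 * α l 1 - P.rep 1 * α l 0 ≠ 0

/-- the local height of `P` and the point `a` at the prime `v` -/
noncomputable def lv (v : HeightOneSpectrum (𝓞 K)) (a : Fin 2 → K)
    (P : Projectivization K (Fin 2 → K)) : ℝ :=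
  Real.log (max (FinitePlace.mk v (P.rep 0)) (FinitePlace.mk v (P.rep 1)) *
    max (FinitePlace.mk v (a 0)) (FinitePlace.mk v (a 1)) /
      FinitePlace.mk v (P.rep 0 * a 1 - P.rep 1 * a 0)) / (Module.finrank ℚ K : ℝ)

/-- the truncated counting function of the grid `D = ⋃ {α i} × P¹ ∪ ⋃ P¹ × {β j}` at `(P, Q)` -/
noncomputable def cnt1 {q r : ℕ} (α : Fin q → Fin 2 → K) (β : Fin r → Fin 2 → K)
    (P Q : Projectivization K (Fin 2 → K)) : ℝ :=
  ∑ᶠ v : HeightOneSpectrum (𝓞 K), min (Real.log (Ideal.absNorm v.asIdeal : ℝ) / (Module.finrank ℚ K : ℝ))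
    (∑ i, lv v (α i) P + ∑ j, lv v (β j) Q)

/-- the value of a form in the coordinates of the two points -/
noncomputable def ev4 (G : MvPolynomial (Fin 4) K) (P Q : Projectivization K (Fin 2 → K)) : K :=
  MvPolynomial.eval ![P.rep 0, P.rep 1, Q.rep 0, Q.rep 1] G

/-- bihomogeneous forms -/
def Bih (G : MvPolynomial (Fin 4) K) : Prop :=
  ∃ a b : ℕ, ∀ m ∈ G.support, m 0 + m 1 = a ∧ m 2 + m 3 = b

/-- the points off the grid and off the curve `G = 0`, of heights at most `B`, which satisfy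
`N ≤ (q - κ) h(P) + (r - κ) h(Q) + c` -/
def GV {q r : ℕ} (α : Fin q → Fin 2 → K) (β : Fin r → Fin 2 → K) (G : MvPolynomial (Fin 4) K)
    (κ c B : ℝ) : Set (Projectivization K (Fin 2 → K) × Projectivization K (Fin 2 → K)) :=
  {p | Off1 α p.1 ∧ Off1 β p.2 ∧ ev4 G p.1 p.2 ≠ 0 ∧ Real.exp (hh p.1) ≤ B ∧ Real.exp (hh p.2) ≤ B ∧
    cnt1 α β p.1 p.2 ≤ ((q : ℝ) - κ) * hh p.1 + ((r : ℝ) - κ) * hh p.2 + c}

/-! ### The `n`-term abc inequality -/

/-- the radical of a point -/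
noncomputable def radP {n : ℕ} (P : Projectivization K (Fin n → K)) : ℝ :=
  (∑ᶠ (v : HeightOneSpectrum (𝓞 K)) (_ : ∃ i j, FinitePlace.mk v (P.rep i) ≠ FinitePlace.mk v (P.rep j)),
    Real.log (Ideal.absNorm v.asIdeal : ℝ)) / (Module.finrank ℚ K : ℝ)

/-- the points `(z_1 : ... : z_n)` with sum zero, nonzero coordinates, `G ≠ 0`, height at most `B` and
`rad(P) ≤ (n - κ) h(P) + c` -/
def NVall {n : ℕ} (G : MvPolynomial (Fin n) K) (κ c B : ℝ) : Set (Projectivization K (Fin n → K)) :=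
  {P | ∑ i, P.rep i = 0 ∧ (∀ i, P.rep i ≠ 0) ∧ MvPolynomial.eval P.rep G ≠ 0 ∧ Real.exp (hh P) ≤ B ∧
    radP P ≤ ((n : ℝ) - κ) * hh P + c}

/-- those without vanishing subsum -/
def NVns {n : ℕ} (G : MvPolynomial (Fin n) K) (κ c B : ℝ) : Set (Projectivization K (Fin n → K)) :=
  {P | P ∈ NVall G κ c B ∧ ∀ I : Finset (Fin n), I.Nonempty → I ≠ univ → ∑ i ∈ I, P.rep i ≠ 0}

end

section Statements

variable (K : Type) [Field K] [NumberField K]

/-- ZARG. Points on a curve `G = 0` of bidegree `(a, b)` on `P¹ × P¹`: for all but at most `a` of the `P` the form `G(P, .)` in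
the two variables of `Q` is not zero, so that there are at most `b` zeros `Q`. The number of the `P` with
`logHeight ≤ X` is `O(exp (2 X))` (`count_le K 2` in `Pool/Agent/N906/EQ`). -/
def S_ZARG : Prop := ∀ G : MvPolynomial (Fin 4) K, G ≠ 0 → Bih G → ∃ C : ℝ, 0 < C ∧ ∀ X : ℝ, 0 ≤ X →
  {p : Projectivization K (Fin 2 → K) × Projectivization K (Fin 2 → K) | Height.logHeight p.1.rep ≤ X ∧
    Height.logHeight p.2.rep ≤ X ∧ ev4 G p.1 p.2 = 0}.Finite ∧
  ({p : Projectivization K (Fin 2 → K) × Projectivization K (Fin 2 → K) | Height.logHeight p.1.rep ≤ X ∧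
    Height.logHeight p.2.rep ≤ X ∧ ev4 G p.1 p.2 = 0}.ncard : ℝ) ≤ C * Real.exp (2 * X)

/-- ZARN. Points of the hyperplane `∑ z_i = 0` on a hypersurface which does not contain it. By REPK each point has
coordinates `x` in `𝓞 K` with `w (x i) ≤ C exp (X / d)`; the set `S` of these elements has between `c exp X` and
`C exp X` elements (upper bound: DISC; if needed enlarge `S`); substitute `z_n = - ∑ z_i` in `G` and use the theorem of Schwartz
and Zippel (`MvPolynomial.schwartz_zippel_totalDegree`) in `n - 1` variables: at most `deg G * |S|^(n-2)` zeros. -/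
def S_ZARN : Prop := ∀ (n D : ℕ) (G : MvPolynomial (Fin n) K), 3 ≤ n → G.IsHomogeneous D →
  (∃ z : Fin n → K, ∑ i, z i = 0 ∧ MvPolynomial.eval z G ≠ 0) → ∃ C : ℝ, 0 < C ∧ ∀ X : ℝ, 0 ≤ X →
  {P : Projectivization K (Fin n → K) | ∑ i, P.rep i = 0 ∧ Height.logHeight P.rep ≤ X ∧
    MvPolynomial.eval P.rep G = 0}.Finite ∧
  ({P : Projectivization K (Fin n → K) | ∑ i, P.rep i = 0 ∧ Height.logHeight P.rep ≤ X ∧
    MvPolynomial.eval P.rep G = 0}.ncard : ℝ) ≤ C * Real.exp (((n : ℝ) - 2) * X)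

/-- FING (the final theorem for grids), from BASQ, UPG, LOG, ZARG. `X = d log B`. Choose `S` good for `α` and `β` (BASQ (1)).
The points `P` with `P.rep 1 ≠ 0` correspond to `x = P.rep 0 / P.rep 1` (`K`), with `hr (aff x) = logHeight P.rep`
(`ht_rep` in `N906/EQ/P1.lean`), `lam (inr v) (aff x) (α l) = d * lv v (α l) P`; at most `O(exp (2 X))` pairs have
`P.rep 1 = 0` or `Q.rep 1 = 0`. With `IsP S α x P'`, `IsP S β y Q'` one has
`tr (ap P' Q') ≤ d * cnt1 ≤ tr (ap P' Q') + ∑_{v ∈ S} log Nv`. Upper bound: UPG. Lower bound: LOG with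
`C₀ = ∑_{v ∈ S} log Nv + d |c|`; remove the `O(exp (2 X))` points with `G = 0` (ZARG). Note `log X = log log B + log d`; limits as in
`Pool/Agent/N906/NT/Lim.lean`, `RS/Lim.lean`. -/
def S_FING : Prop := ∀ (q r : ℕ) (α : Fin q → Fin 2 → K) (β : Fin r → Fin 2 → K)
    (G : MvPolynomial (Fin 4) K) (κ c : ℝ), 1 ≤ q → 1 ≤ r → (∀ i, α i ≠ 0) → (∀ j, β j ≠ 0) →
  (∀ i j, i ≠ j → α i 0 * α j 1 - α i 1 * α j 0 ≠ 0) →
  (∀ i j, i ≠ j → β i 0 * β j 1 - β i 1 * β j 0 ≠ 0) → G ≠ 0 → Bih G → 0 < κ → κ < 1 / 3 →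
  (∀ B : ℝ, (GV α β G κ c B).Finite) ∧
  Tendsto (fun B : ℝ => (Real.log ((GV α β G κ c B).ncard : ℝ) -
      Module.finrank ℚ K * (4 - 2 * κ) * Real.log B) /
    (Real.log B / Real.log (Real.log B)) ^ ((2 : ℝ) / 3)) atTop
    (𝓝 ((3 / 2) ^ ((5 : ℝ) / 3) * ((q : ℝ) * r) ^ ((1 : ℝ) / 3) *
      (2 * κ * Module.finrank ℚ K) ^ ((2 : ℝ) / 3)))

/-- FINN (the final theorem for `n`-term sums), from BASN, UPNK, LONK, ZARN. `X = d log B`,
`d * radP P = tr P'` for `IsQ P.rep P'`. Upper bound: UPNK for NVall. Lower bound: LONK for NVns, with `C₀ = d |c|`; remove the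
`O(exp ((n-2) X))` points with `G = 0` (ZARN). Limits as in `Pool/Agent/N906/NT/Lim.lean`. -/
def S_FINN : Prop := ∀ (n D : ℕ) (G : MvPolynomial (Fin n) K) (κ c : ℝ), 3 ≤ n → G.IsHomogeneous D →
  (∃ z : Fin n → K, ∑ i, z i = 0 ∧ MvPolynomial.eval z G ≠ 0) → 0 < κ → κ < 1 / 3 →
  (∀ B : ℝ, (NVall G κ c B).Finite) ∧
  Tendsto (fun B : ℝ => (Real.log ((NVall G κ c B).ncard : ℝ) -
      Module.finrank ℚ K * ((n : ℝ) - 1 - κ) * Real.log B) /
    (Real.log B / Real.log (Real.log B)) ^ (((n : ℝ) - 2) / (n - 1))) atTop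
    (𝓝 ((((n : ℝ) - 1) / (n - 2)) ^ ((2 * (n : ℝ) - 3) / (n - 1)) *
      (n.choose 2 : ℝ) ^ (1 / ((n : ℝ) - 1)) * (κ * Module.finrank ℚ K) ^ (((n : ℝ) - 2) / (n - 1)))) ∧
  Tendsto (fun B : ℝ => (Real.log ((NVns G κ c B).ncard : ℝ) -
      Module.finrank ℚ K * ((n : ℝ) - 1 - κ) * Real.log B) /
    (Real.log B / Real.log (Real.log B)) ^ (((n : ℝ) - 2) / (n - 1))) atTop
    (𝓝 ((((n : ℝ) - 1) / (n - 2)) ^ ((2 * (n : ℝ) - 3) / (n - 1)) *
      (n.choose 2 : ℝ) ^ (1 / ((n : ℝ) - 1)) * (κ * Module.finrank ℚ K) ^ (((n : ℝ) - 2) / (n - 1))))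

end Statements

end Pool.Agent.N906.KG
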