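import Mathlib
import Pool.Agent.W223.AK.Defs
import Pool.Agent.N906.NT.Stm

/-!
# Project KG (helper906): generating functions over tuples of ideals of a number field

These are the versions over a number field `K` of the statements EUPN, GUPN, GLOWN, WINN, RED of project NT
(`Pool/Agent/N906/NT/Stm.lean`, proved in `Pool/Agent/N475/NT_EUPN.lean`, `N539/NT_GUPN.lean`, `N327/NT_WINN.lean`,
`N475/NT_RED.lean`). For `r = 1`, `n = 3` the versions over `K` are in project RS (`Pool/Agent/N906/RS/Stm.lean`: EUP,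
GUP, ELOW, GLOW, WIN, proved; `S_PIT K`, the prime ideal theorem, is proved too, see `Pool/Agent/N906/RS/All.lean`).
They will be used for second order terms over all number fields (MP_542436_nt, MP_7475bd_nt).

Notation (`Pool/Agent/W223/AK/Defs.lean`, `Pool/Agent/H691R3/`): `Pr K` primes, `Nv v` the norm,
`Idl K = Pr K →₀ ℕ` ideals, `len` log of the norm.
-/

set_option autoImplicit false

namespace Pool.Agent.N906.KG

open NumberField IsDedekindDomain Finset Filter Topology Pool.Agent.H691R3 Pool.Agent.W223.AK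
open Pool.Agent.N906.NT (Cx cst)

section Defs

variable {K : Type} [Field K] [NumberField K] {n : ℕ}

open Classical in
/-- the primes dividing one of the ideals -/
noncomputable def sp (D : Fin n → Idl K) : Finset (Pr K) := univ.biUnion fun i => (D i).support

/-- the logarithm of the norm of the product -/
noncomputable def tl (D : Fin n → Idl K) : ℝ := ∑ i, len (D i)

/-- the logarithm of the norm of the radical of the product -/
noncomputable def tr (D : Fin n → Idl K) : ℝ := ∑ v ∈ sp D, Real.log (Nv v)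

/-- the logarithm of the gain -/
noncomputable def gl (D : Fin n → Idl K) : ℝ := tl D - tr D

/-- the number of the primes -/
noncomputable def om (D : Fin n → Idl K) : ℕ := (sp D).card

/-- the sum of the reciprocals of the norms of the primes -/
noncomputable def rs (D : Fin n → Idl K) : ℝ := ∑ v ∈ sp D, (Nv v)⁻¹

/-- the set of the indices of the ideals divisible by a prime is a face of `Δ` -/
def Tp (Δ : Finset (Finset (Fin n))) (D : Fin n → Idl K) : Prop :=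
  ∀ v, (univ.filter fun i => D i v ≠ 0) ∈ Δ

/-- the product is squareful -/
def Sq (D : Fin n → Idl K) : Prop := ∀ v, ∑ i, D i v ≠ 1

end Defs

section Statements

variable (K : Type) [Field K] [NumberField K]

/-- EUPK. The logarithm of the Euler product, as `S_EUPN` of project NT (proof there), with the prime ideal theorem
(`S_PIT K` of project RS, proved). `ℓ = log (1/u)`. (i) `Nv ≤ u^(-r) ℓ^(-r-1) = y₁`: each term is
`O(ℓ)`, and there are `O(y₁ / ℓ)` of them, total `O(u^(-r) ℓ^(-r-1))`. (ii) `y₁ < Nv ≤ exp (δ / u)` with a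
small fixed `δ`: `log (1 + x) ≤ x`, `Nv^(θu) ≤ 1 + ε'`, `Nv^u - 1 ≥ u log Nv`, and
`∑_{Nv > y} 1 / (Nv (log Nv)^r) = (1 + o(1)) / (r (log y)^r)` (prime ideal theorem and summation over the blocks
`T < Nv ≤ lam T`, as in `Pool/Agent/N42/RSA.lean`, `gs_low`, and the proof of EUP in project RS), `log y₁ ~ r ℓ`; the other
terms have `(Nv^u - 1)^(-j)`, `1 ≤ j ≤ r - 1`, and are smaller by a factor `O(δ)`. (iii) `Nv > exp (δ / u)`:
`Nv^(θu) / (Nv^u - 1) ≤ C_δ Nv^(-u/2)` and `∑_{Nv > exp(δ/u)} Nv^(-1-u/2) = O_δ(1)`. -/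
def S_EUPK : Prop := ∀ (r t N : ℕ) (μ θ ε : ℝ), 1 ≤ r → 1 ≤ t → 0 < μ → 0 ≤ θ → θ ≤ 1 / 2 → 0 < ε →
  ∃ u₀ : ℝ, 0 < u₀ ∧ u₀ < 1 / 2 ∧ ∀ u : ℝ, 0 < u → u < u₀ → ∀ s : Finset (Pr K),
    ∑ v ∈ s, Real.log (1 + μ * (Nv v) ^ (θ * u - 1) * (t / ((Nv v) ^ u - 1) ^ r +
      ((r : ℝ) - 1) * N * (1 / ((Nv v) ^ u - 1) + 1 / ((Nv v) ^ u - 1) ^ (r - 1)))) ≤
      (1 + ε) * μ * t / (r * (r * (u * Real.log (1 / u))) ^ r)

/-- GUPK, as `S_GUPN` (`Pool/Agent/N539/NT_GUPN.lean`). From EUPK with `N = 2 ^ (n + 1)`. The sum is at most the product over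
the primes of `1 + ∑_e μ Nv^(-u |e|) Nv^(-(1 - (1 + θ) u))`, over the exponent vectors `e ≠ 0` with support in `Δ` and
`|e| = ∑ e_i ≥ 2`; `∑_{supp e = S, |e| ≥ 2} Nv^(-u (|e| - 1))` is `1/(y-1)` for `|S| = 1` and
`y / (y-1)^m = 1/(y-1)^m + 1/(y-1)^(m-1)` for `|S| = m ≥ 2`, with `y = Nv^u`. -/
def S_GUPK : Prop := ∀ (n : ℕ) (Δ : Finset (Finset (Fin n))) (r t : ℕ) (μ θ ε : ℝ), Cx Δ r t →
  0 < μ → 0 ≤ θ → θ ≤ 1 / 2 → 0 < ε →
  ∃ u₀ : ℝ, 0 < u₀ ∧ u₀ < 1 / 2 ∧ ∀ u : ℝ, 0 < u → u < u₀ → ∀ F : Finset (Fin n → Idl K),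
    (∀ D ∈ F, Tp Δ D ∧ Sq D) →
    ∑ D ∈ F, μ ^ om D * Real.exp (-(u * gl D) - (1 - θ * u) * tr D) ≤
      Real.exp ((1 + ε) * μ * t / (r * (r * (u * Real.log (1 / u))) ^ r))

/-- GLOWK, as `S_GLOWN`. Take the primes `u^(-(r+ε)) ≤ Nv ≤ exp (δ / u)` and for each such `v` nothing or an exponent
vector whose support is a face with exactly `r` elements (with `|e| ≥ 2`, `e_i ≤ E` large); the local sum is
`≥ 1 + (1 - ε'') t / (Nv (u log Nv)^r)`. Compare `Pool/Agent/N407/SZ_GLOWQ.lean`, `Pool/Agent/N42/RSA.lean`, and the proof of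
`S_GLOWN` (helper340). -/
def S_GLOWK : Prop := ∀ (n : ℕ) (Δ : Finset (Finset (Fin n))) (r t : ℕ) (ε : ℝ), Cx Δ r t →
  0 < ε → ε < 1 / 3 →
  ∃ u₀ : ℝ, 0 < u₀ ∧ u₀ < 1 / 2 ∧ ∀ u : ℝ, 0 < u → u < u₀ → ∃ F : Finset (Fin n → Idl K),
    (∀ D ∈ F, Tp Δ D ∧ Sq D ∧ ∀ v ∈ sp D, u ^ (-((r : ℝ) + ε)) ≤ Nv v) ∧
    Real.exp ((1 - 3 * ε) * t / (r * (r * (u * Real.log (1 / u))) ^ r)) ≤
      ∑ D ∈ F, Real.exp (-(u * gl D) - tr D)

/-- WINK, as `S_WINN` (`Pool/Agent/N327/NT_WINN.lean`), from GUPK and GLOWK. Put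
`S(u) = t / (r (r u log(1/u))^r)` and take `u` with `r S(u) = u Z'`, `Z' = (1 - ε') Z` (or explicitly
`u = (t / (r^r Z ℓ^r))^(1/(r+1))` with `ℓ = log Z / (r + 1)`); `u Z + S(u) = ((r+1)/r) u Z`, which is
`cst r t (Z / log Z)^(r/(r+1))` up to `1 + o(1)`. Remove from the sum of GLOWK the `D` with `gl D > Z` (GUPK at
`(1 - η) u`), those with `gl D < (1 - ε) Z'` (GUPK at `(1 + η) u`), those with `tr D > ε Z` (GUPK with
`θ = 1/2`), those with more than `C S(u)` primes (GUPK with a large `μ`); the latter, with all primes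
`≥ u^(-(r+ε))`, gives `rs D ≤ c`. `√Z < u^(-(r+ε))`. -/
def S_WINK : Prop := ∀ (n : ℕ) (Δ : Finset (Finset (Fin n))) (r t : ℕ) (ε c : ℝ), Cx Δ r t →
  0 < ε → ε < 1 → 0 < c → ∃ Z₀ : ℝ, 1 < Z₀ ∧ ∀ Z : ℝ, Z₀ ≤ Z →
  ∃ F : Finset (Fin n → Idl K),
    (∀ D ∈ F, Tp Δ D ∧ Sq D ∧ (∀ v ∈ sp D, √Z < Nv v) ∧ gl D ≤ Z ∧ tr D ≤ ε * Z ∧ rs D ≤ c) ∧
    Real.exp ((1 - ε) * cst r t * (Z / Real.log Z) ^ ((r : ℝ) / (r + 1))) ≤
      ∑ D ∈ F, Real.exp (-tr D)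

/-- REDK, as `S_RED`. Take `D ≤ E` with `gl D ≥ T` and `∑_{i,v} D i v` minimal. If a prime `v` divides one of the `D i`
then lower one nonzero `D i v` by one: `gl` decreases by `log Nv`, or it does not change if `∑ D i v = 1`. -/
def S_REDK : Prop := ∀ (n : ℕ) (Δ : Finset (Finset (Fin n))) (r t : ℕ), Cx Δ r t →
  ∀ (E : Fin n → Idl K) (T : ℝ), Tp Δ E → 0 ≤ T → T ≤ gl E →
  ∃ D : Fin n → Idl K, (∀ i, D i ≤ E i) ∧ Tp Δ D ∧ Sq D ∧ T ≤ gl D ∧
    ∀ v ∈ sp D, gl D - Real.log (Nv v) < T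

/-- CNTK. The number of the tuples with gain at most `exp G`. From GUPK (`μ = 1`, `θ = 0`, a fixed small `u < η`): for `Sq D`
one has `tr D ≤ gl D`, so `exp (- (1 + u) gl D) ≤ exp (- u gl D - tr D)`. -/
def S_CNTK : Prop := ∀ (n : ℕ) (Δ : Finset (Finset (Fin n))) (r t : ℕ) (η : ℝ), Cx Δ r t → 0 < η →
  ∃ C : ℝ, 0 < C ∧ ∀ (G : ℝ) (F : Finset (Fin n → Idl K)), 0 ≤ G →
    (∀ D ∈ F, Tp Δ D ∧ Sq D ∧ gl D ≤ G) → (F.card : ℝ) ≤ C * Real.exp ((1 + η) * G)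

/-- RANK (Rankin's method with the optimal `u`). From GUPK (`μ = 1`, `θ = 0`):
`∑ exp (- gl D - tr D) ≤ exp (- (1 - u) T) ∑ exp (- u gl D - tr D)`, with the `u` of WINK:
`u = (t / (r^r Z ℓ^r))^(1/(r+1))`, `ℓ = log Z / (r + 1)`; `u T ≤ u Z + ...`. For `T > Z` there is nothing to do as
`exp (- T) exp (u T) ≤ exp (-T) exp (u Z) exp (u (T - Z))`; so we assume `T ≤ Z`. Compare the end of
`Pool/Agent/N755/NT_UPA.lean` (`cst_pow`, `num`, choice of `u`). -/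
def S_RANK : Prop := ∀ (n : ℕ) (Δ : Finset (Finset (Fin n))) (r t : ℕ) (ε : ℝ), Cx Δ r t → 0 < ε →
  ∃ Z₀ : ℝ, 1 < Z₀ ∧ ∀ (Z T : ℝ) (F : Finset (Fin n → Idl K)), Z₀ ≤ Z → T ≤ Z →
    (∀ D ∈ F, Tp Δ D ∧ Sq D ∧ T ≤ gl D) →
    ∑ D ∈ F, Real.exp (-tl D) ≤
      Real.exp (-T + (1 + ε) * cst r t * (Z / Real.log Z) ^ ((r : ℝ) / (r + 1)))

end Statements

end Pool.Agent.N906.KG
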