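import Pool.Agent.N906.KG.Def
import Pool.Agent.N51.KG_EUPK
import Pool.Agent.N572.KG_GUPK
import Pool.Agent.N814.KG_GLOWK
import Pool.Agent.N700.KG_WINK
import Pool.Agent.N433.KG_REDK
import Pool.Agent.N891.KG_CNTK
import Pool.Agent.N896.KG_RANK
import Pool.Agent.N519.KG_CXG
import Pool.Agent.N954.KG_BASQ
import Pool.Agent.N478.KG_CELLQ
import Pool.Agent.N346.KG_LOWQ
import Pool.Agent.N645.KG_UPG
import Pool.Agent.N499.KG_LOG
import Pool.Agent.N72.KG_ZARG
import Pool.Agent.N170.KG_FING

/-!
# Project KG: the infrastructure and the grid part, put together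
-/

set_option autoImplicit false

namespace Pool.Agent.N906.KG

open NumberField

variable (K : Type) [Field K] [NumberField K]

theorem gupk_all : S_GUPK K := Pool.Agent.N572.KG.gupk K (Pool.Agent.N51.KG.eupk K)
theorem wink_all : S_WINK K := Pool.Agent.N700.KG.wink K (gupk_all K) (Pool.Agent.N814.KG.glowk K)
theorem redk_all : S_REDK K := Pool.Agent.N433.KG.redk K
theorem cntk_all : S_CNTK K := Pool.Agent.N891.KG.cntk K (gupk_all K)
theorem rank_all : S_RANK K := Pool.Agent.N896.KG.rank K (gupk_all K)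
theorem basq_all : S_BASQ K := Pool.Agent.N954.KG.basq K
theorem cellq_all : S_CELLQ K := Pool.Agent.N478.KG.cellq K
theorem lowq_all : S_LOWQ K := Pool.Agent.N346.KG.lowq K (cellq_all K)
theorem upg_all : S_UPG K := Pool.Agent.N645.KG.upg K Pool.Agent.N519.KG.cxg (basq_all K)
  (cellq_all K) (redk_all K) (rank_all K) (cntk_all K)
theorem log_all : S_LOG K := Pool.Agent.N499.KG.logr K Pool.Agent.N519.KG.cxg (basq_all K)
  (cellq_all K) (lowq_all K) (wink_all K)
theorem fing_all : S_FING K := Pool.Agent.N170.KG.fing K (basq_all K) (upg_all K) (log_all K)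
  (Pool.Agent.N72.KG.zarg K)

end Pool.Agent.N906.KG
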