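import Pool.Agent.N906.KG.Def
import Pool.Agent.N51.KG_EUPK
import Pool.Agent.N572.KG_GUPK
import Pool.Agent.N814.KG_GLOWK
import Pool.Agent.N700.KG_WINK
import Pool.Agent.N433.KG_REDK
import Pool.Agent.N891.KG_CNTK
import Pool.Agent.N896.KG_RANK
import Pool.Agent.N27.KG_TEL
import Pool.Agent.N588.KG_DISC
import Pool.Agent.N690.KG_SEQ0
import Pool.Agent.N488.KG_SEQK
import Pool.Agent.N897.KG_TRIVK
import Pool.Agent.N595.KG_PRMK
import Pool.Agent.N277.KG_REPK
import Pool.Agent.N278.KG_BASN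
import Pool.Agent.N531.KG_UPNK
import Pool.Agent.N603.KG_BXU
import Pool.Agent.N543.KG_BXL
import Pool.Agent.N216.KG_LOWNK
import Pool.Agent.N297.KG_LONK
import Pool.Agent.N152.KG_ZARN
import Pool.Agent.N152.KG_FINN

/-!
# Project KG: the `n`-term part, put together
-/

set_option autoImplicit false

namespace Pool.Agent.N906.KG.NTerm

open NumberField

variable (K : Type) [Field K] [NumberField K]

theorem gup : S_GUPK K := Pool.Agent.N572.KG.gupk K (Pool.Agent.N51.KG.eupk K)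
theorem seq0 : S_SEQ0 K := Pool.Agent.N690.KG.seq0 K (Pool.Agent.N588.KG.disc K)
theorem tel : S_TEL K := Pool.Agent.N27.KG.tel K
theorem repk : S_REPK K := Pool.Agent.N277.KG.repk K
theorem basn : S_BASN K := Pool.Agent.N278.KG.basn K

theorem upnk : S_UPNK K :=
  Pool.Agent.N531.KG.upnk K (basn K) (repk K) (Pool.Agent.N488.KG.seqk K (seq0 K) (tel K))
    (Pool.Agent.N897.KG.trivk K (seq0 K) (tel K)) (Pool.Agent.N595.KG.prmk K (seq0 K) (tel K))
    (Pool.Agent.N433.KG.redk K) (Pool.Agent.N896.KG.rank K (gup K))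
    (Pool.Agent.N891.KG.cntk K (gup K))

theorem lonk : S_LONK K :=
  Pool.Agent.N297.KG.lonk K (Pool.Agent.N700.KG.wink K (gup K) (Pool.Agent.N814.KG.glowk K))
    (Pool.Agent.N216.KG.lownk K (basn K) (seq0 K) (tel K)
      (Pool.Agent.N603.KG.bxu K (seq0 K) (tel K)) (Pool.Agent.N543.KG.bxl K (tel K)))

theorem finn : S_FINN K :=
  Pool.Agent.N152.KG.finn K (basn K) (upnk K) (lonk K)
    (Pool.Agent.N152.KG.zarn K (repk K) (Pool.Agent.N588.KG.disc K))

end Pool.Agent.N906.KG.NTerm
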